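import Pool.Agent.U84.AWQ.Stm

/-!
# Project AWQ, package NRM: the norm of a diagonal element
-/

set_option autoImplicit false

namespace Pool.Agent.U452.AWQ

open Pool.Agent.R456.CL Pool.Agent.U84.AWQ

universe u

variable {A : Type u} [CStarAlgebra A]

theorem pj_norm {p : A} (hp : PJ p) : ‖p‖ ≤ 1 := by
  have h := CStarRing.norm_star_mul_self (x := p)
  rw [hp.isSelfAdjoint.star_eq, hp.isIdempotentElem.eq] at h
  by_contra hc
  push Not at hc
  nlinarith [norm_nonneg p]

theorem diag_mul {κ : Type} [Fintype κ] (p : κ → A) (α β : κ → ℝ) (hp : ∀ i, PJ (p i))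
    (ho : ∀ i j, i ≠ j → p i * p j = 0) :
    (∑ i, (α i : ℂ) • p i) * (∑ i, (β i : ℂ) • p i) = ∑ i, ((α i * β i : ℝ) : ℂ) • p i := by
  classical
  rw [Finset.sum_mul]
  refine Finset.sum_congr rfl (fun i _ => ?_)
  rw [Finset.mul_sum, Finset.sum_eq_single i]
  · rw [smul_mul_smul_comm, (hp i).isIdempotentElem.eq]
    push_cast
    rfl
  · intro j _ hj
    rw [smul_mul_smul_comm, ho i j (Ne.symm hj), smul_zero]
  · intro h; exact absurd (Finset.mem_univ _) h

theorem diag_star {κ : Type} [Fintype κ] (p : κ → A) (α : κ → ℝ) (hp : ∀ i, PJ (p i)) :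
    star (∑ i, (α i : ℂ) • p i) = ∑ i, (α i : ℂ) • p i := by
  rw [star_sum]
  refine Finset.sum_congr rfl (fun i _ => ?_)
  rw [star_smul, (hp i).isSelfAdjoint.star_eq]
  congr 1
  exact Complex.conj_ofReal _

/-- a sequence comparison -/
theorem le_of_pow_bound {x y N : ℝ} (hx : 0 ≤ x) (hy : 0 ≤ y) (hN : 0 ≤ N)
    (h : ∀ n : ℕ, x ^ (2 ^ n) ≤ N * y ^ (2 ^ n)) : x ≤ y := by
  by_contra hc
  push Not at hc
  have hx0 : 0 < x := lt_of_le_of_lt hy hc
  have h1 : y / x < 1 := (div_lt_one hx0).2 hc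
  have h1' : 0 ≤ y / x := div_nonneg hy hx
  obtain ⟨m, hm⟩ := exists_pow_lt_of_lt_one (show (0 : ℝ) < 1 / (N + 1) by positivity) h1
  have h2 : (y / x) ^ (2 ^ m) ≤ (y / x) ^ m :=
    pow_le_pow_of_le_one h1' h1.le (Nat.lt_two_pow_self).le
  have h3 := h m
  have h4 : 1 ≤ N * (y / x) ^ (2 ^ m) := by
    rw [div_pow, mul_div_assoc', le_div_iff₀ (by positivity), one_mul]
    exact h3
  have h5 : N * (y / x) ^ (2 ^ m) ≤ N * (1 / (N + 1)) :=
    mul_le_mul_of_nonneg_left (h2.trans hm.le) hN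
  have h6 : N * (1 / (N + 1)) < 1 := by
    rw [mul_one_div, div_lt_one (by positivity)]
    linarith
  linarith

theorem diag_norm {κ : Type} [Fintype κ] (p : κ → A) (l : κ → ℝ) (M : ℝ) (hM : 0 ≤ M)
    (hp : ∀ i, PJ (p i)) (ho : ∀ i j, i ≠ j → p i * p j = 0) (hl : ∀ i, |l i| ≤ M) :
    ‖∑ i, (l i : ℂ) • p i‖ ≤ M := by
  classical
  set a := ∑ i, (l i : ℂ) • p i with ha
  have hsa : IsSelfAdjoint a := diag_star p l hp
  have hpow : ∀ m : ℕ, a ^ (m + 1) = ∑ i, ((l i ^ (m + 1) : ℝ) : ℂ) • p i := by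
    intro m
    induction m with
    | zero => simp [ha]
    | succ m ih =>
      rw [pow_succ, ih, ha, diag_mul p _ _ hp ho]
      refine Finset.sum_congr rfl (fun i _ => ?_)
      rw [← pow_succ]
  have hbd : ∀ m : ℕ, ‖a ^ (m + 1)‖ ≤ (Fintype.card κ : ℝ) * M ^ (m + 1) := by
    intro m
    rw [hpow]
    refine (norm_sum_le _ _).trans ?_
    have : ∀ i ∈ (Finset.univ : Finset κ), ‖((l i ^ (m + 1) : ℝ) : ℂ) • p i‖ ≤ M ^ (m + 1) := by
      intro i _
      rw [norm_smul, Complex.norm_real, Real.norm_eq_abs, abs_pow]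
      calc |l i| ^ (m + 1) * ‖p i‖ ≤ M ^ (m + 1) * 1 :=
            mul_le_mul (pow_le_pow_left₀ (abs_nonneg _) (hl i) _) (pj_norm (hp i))
              (norm_nonneg _) (pow_nonneg hM _)
        _ = M ^ (m + 1) := mul_one _
    refine (Finset.sum_le_sum this).trans ?_
    rw [Finset.sum_const, Finset.card_univ, nsmul_eq_mul]
  refine le_of_pow_bound (norm_nonneg a) hM (Nat.cast_nonneg (Fintype.card κ)) (fun n => ?_)
  have h1 : ‖a ^ (2 ^ n)‖ = ‖a‖ ^ (2 ^ n) := by
    have := hsa.nnnorm_pow_two_pow n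
    have h2 := congrArg NNReal.toReal this
    simpa using h2
  rw [← h1]
  have h3 : 2 ^ n = (2 ^ n - 1) + 1 := by
    have : 1 ≤ 2 ^ n := Nat.one_le_two_pow
    omega
  rw [h3]
  exact hbd _

theorem t_NRM : S_NRM.{u} := by
  intro A _ hSa ι r E Y c hc hr ho hE hEY hYE hcomm hn
  classical
  obtain ⟨hE1, hE2, hE3⟩ := hE
  by_contra hlt
  push Not at hlt
  obtain ⟨b, hbdef⟩ : ∃ b : A, b = star Y * Y := ⟨_, rfl⟩
  have hb : ‖b‖ = ‖Y‖ * ‖Y‖ := by rw [hbdef]; exact CStarRing.norm_star_mul_self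
  have hsb : star b = b := by rw [hbdef, star_mul, star_star]
  have hstar : ∀ i, r i * star Y = star Y * r i := by
    intro i
    have h := congrArg star (hcomm i)
    rw [star_mul, star_mul, (hr i).isSelfAdjoint.star_eq] at h
    exact h.symm
  have hrb : ∀ i, r i * b = b * r i := by
    intro i
    rw [hbdef, ← mul_assoc, hstar, mul_assoc, hcomm, mul_assoc]
  have hrr : ∀ i, r i * r i = r i := fun i => (hr i).isIdempotentElem.eq
  have hbr : ∀ i, ‖b * r i‖ ≤ c * c := by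
    intro i
    have h1 : b * r i = star (r i * Y) * (r i * Y) := by
      rw [star_mul, (hr i).isSelfAdjoint.star_eq, hbdef]
      calc star Y * Y * r i = star Y * (Y * r i) := by rw [mul_assoc]
        _ = star Y * (r i * Y) := by rw [hcomm]
        _ = star Y * (r i * r i * Y) := by rw [hrr]
        _ = star Y * r i * (r i * Y) := by simp only [mul_assoc]
    rw [h1, CStarRing.norm_star_mul_self]
    exact mul_le_mul (hn i) (hn i) (norm_nonneg _) hc
  have hcb : c * c < ‖b‖ := by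
    rw [hb]
    nlinarith
  obtain ⟨T, hT⟩ : ∃ T : ℝ, T = (c * c + ‖b‖) / 2 := ⟨_, rfl⟩
  have hT1 : c * c < T := by rw [hT]; linarith
  have hT2 : T < ‖b‖ := by rw [hT]; linarith
  have hcc : 0 ≤ c * c := mul_nonneg hc hc
  have hT0 : 0 < T := lt_of_le_of_lt hcc hT1
  obtain ⟨δ, hδ⟩ : ∃ δ : ℝ, δ = (‖b‖ - T) / 4 := ⟨_, rfl⟩
  have hδ0 : 0 < δ := by rw [hδ]; linarith
  obtain ⟨κ, hκ, p, l, hp, hpo, hps, hpb, hpn⟩ :=
    hSa 1 b ⟨mul_one 1, star_one A⟩ hsb (mul_one b) δ hδ0
  obtain ⟨χ, hχ⟩ : ∃ χ : κ → ℝ, ∀ i, χ i = if T + δ < |l i| then 1 else 0 := ⟨_, fun _ => rfl⟩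
  obtain ⟨di, hdi⟩ : ∃ di : κ → ℝ, ∀ i, di i = if T + δ < |l i| then (l i)⁻¹ else 0 :=
    ⟨_, fun _ => rfl⟩
  obtain ⟨k, hk⟩ : ∃ k : A, k = ∑ i, (χ i : ℂ) • p i := ⟨_, rfl⟩
  obtain ⟨D, hD⟩ : ∃ D : A, D = ∑ i, (di i : ℂ) • p i := ⟨_, rfl⟩
  obtain ⟨S, hS⟩ : ∃ S : A, S = ∑ i, (l i : ℂ) • p i := ⟨_, rfl⟩
  have hDS : D * S = k := by
    rw [hD, hS, hk, diag_mul p _ _ hp hpo]
    refine Finset.sum_congr rfl (fun i _ => ?_)
    congr 2
    rw [hdi, hχ]
    split_ifs with h
    · have : l i ≠ 0 := by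
        intro h0
        rw [h0, abs_zero] at h
        linarith
      exact inv_mul_cancel₀ this
    · rw [zero_mul]
  have hkk : k * k = k := by
    rw [hk, diag_mul p _ _ hp hpo]
    refine Finset.sum_congr rfl (fun i _ => ?_)
    congr 2
    rw [hχ]
    split_ifs <;> simp
  have hkb : k * b = b * k := by
    rw [hk, Finset.sum_mul, Finset.mul_sum]
    refine Finset.sum_congr rfl (fun i _ => ?_)
    rw [smul_mul_assoc, mul_smul_comm, hpb]
  have hDn : ‖D‖ ≤ 1 / (T + δ) := by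
    rw [hD]
    refine diag_norm p di _ (by positivity) hp hpo (fun i => ?_)
    rw [hdi]
    split_ifs with h
    · rw [abs_inv, one_div]
      exact inv_anti₀ (by positivity) h.le
    · rw [abs_zero]; positivity
  have hkn : ‖k‖ ≤ 1 := by
    rw [hk]
    refine diag_norm p χ _ zero_le_one hp hpo (fun i => ?_)
    rw [hχ]
    split_ifs <;> simp
  have hbelow : ∀ x : A, k * x = x → T * ‖x‖ ≤ ‖b * x‖ := by
    intro x hx
    have h1 : x = D * (S * x) := by rw [← mul_assoc, hDS, hx]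
    have h2 : ‖S * x‖ ≤ ‖b * x‖ + δ * ‖x‖ := by
      have h3 : S * x = b * x - (b - S) * x := by rw [sub_mul]; abel
      rw [h3]
      refine (norm_sub_le _ _).trans ?_
      have h4 : ‖(b - S) * x‖ ≤ δ * ‖x‖ := by
        refine (norm_mul_le _ _).trans ?_
        refine mul_le_mul_of_nonneg_right ?_ (norm_nonneg _)
        rw [hS]; exact hpn
      linarith
    have h5 : ‖x‖ ≤ 1 / (T + δ) * (‖b * x‖ + δ * ‖x‖) := by
      calc ‖x‖ = ‖D * (S * x)‖ := by rw [← h1]
        _ ≤ ‖D‖ * ‖S * x‖ := norm_mul_le _ _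
        _ ≤ 1 / (T + δ) * (‖b * x‖ + δ * ‖x‖) :=
          mul_le_mul hDn h2 (norm_nonneg _) (by positivity)
    rw [one_div, ← div_eq_inv_mul, le_div_iff₀ (by positivity)] at h5
    nlinarith
  have hkr : ∀ i, k * r i = 0 := by
    intro i
    have hy : ∀ n : ℕ, k * (b ^ n * (k * r i)) = b ^ n * (k * r i) := by
      intro n
      have hcomm2 : k * b ^ n = b ^ n * k := (Commute.pow_right (show Commute k b from hkb) n)
      calc k * (b ^ n * (k * r i)) = (k * b ^ n) * (k * r i) := by rw [mul_assoc]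
        _ = b ^ n * (k * k * r i) := by rw [hcomm2]; simp only [mul_assoc]
        _ = b ^ n * (k * r i) := by rw [hkk]
    have hgrow : ∀ n : ℕ, T ^ n * ‖k * r i‖ ≤ ‖b ^ n * (k * r i)‖ := by
      intro n
      induction n with
      | zero => simp
      | succ n ih =>
        have h1 := hbelow _ (hy n)
        rw [← mul_assoc b, ← pow_succ'] at h1
        calc T ^ (n + 1) * ‖k * r i‖ = T * (T ^ n * ‖k * r i‖) := by ring
          _ ≤ T * ‖b ^ n * (k * r i)‖ := mul_le_mul_of_nonneg_left ih hT0.le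
          _ ≤ _ := h1
    have hsmall : ∀ n : ℕ, ‖b ^ n * r i‖ ≤ (c * c) ^ n := by
      intro n
      induction n with
      | zero => simpa using pj_norm (hr i)
      | succ n ih =>
        have h1 : b ^ (n + 1) * r i = (b ^ n * r i) * (b * r i) := by
          calc b ^ (n + 1) * r i = b ^ n * (b * r i) := by rw [pow_succ, mul_assoc]
            _ = b ^ n * (b * (r i * r i)) := by rw [hrr]
            _ = b ^ n * ((b * r i) * r i) := by rw [mul_assoc b]
            _ = b ^ n * ((r i * b) * r i) := by rw [hrb]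
            _ = (b ^ n * r i) * (b * r i) := by simp only [mul_assoc]
        rw [h1, pow_succ]
        exact (norm_mul_le _ _).trans (mul_le_mul ih (hbr i) (norm_nonneg _) (pow_nonneg hcc n))
    have hle : ∀ n : ℕ, T ^ n * ‖k * r i‖ ≤ (c * c) ^ n := by
      intro n
      refine (hgrow n).trans ?_
      have hcomm2 : k * b ^ n = b ^ n * k := (Commute.pow_right (show Commute k b from hkb) n)
      have h1 : b ^ n * (k * r i) = k * (b ^ n * r i) := by
        rw [← mul_assoc, ← hcomm2, mul_assoc]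
      rw [h1]
      calc ‖k * (b ^ n * r i)‖ ≤ ‖k‖ * ‖b ^ n * r i‖ := norm_mul_le _ _
        _ ≤ 1 * (c * c) ^ n := mul_le_mul hkn (hsmall n) (norm_nonneg _) zero_le_one
        _ = (c * c) ^ n := one_mul _
    by_contra hne
    have hpos : 0 < ‖k * r i‖ := norm_pos_iff.2 hne
    have h1 : c * c / T < 1 := (div_lt_one hT0).2 hT1
    obtain ⟨m, hm⟩ := exists_pow_lt_of_lt_one hpos h1
    have h2 := hle m
    rw [div_pow, div_lt_iff₀ (by positivity)] at hm
    linarith [mul_comm (T ^ m) ‖k * r i‖]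
  have hkE : k * E = 0 := hE3 k hkr
  have hEb : E * b = b := by
    have h1 : E * star Y = star Y := by
      have h := congrArg star hYE
      rw [star_mul, hE1.isSelfAdjoint.star_eq] at h
      exact h
    rw [hbdef, ← mul_assoc, h1]
  have hkb0 : k * b = 0 := by rw [← hEb, ← mul_assoc, hkE, zero_mul]
  have hk0 : k = 0 := by
    have h1 := hbelow k hkk
    rw [← hkb, hkb0, norm_zero] at h1
    have h2 : ‖k‖ ≤ 0 := by
      by_contra h
      push Not at h
      nlinarith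
    exact norm_le_zero_iff.1 h2
  have hSn : ‖S‖ ≤ T + δ := by
    have h1 : S = ∑ i, ((l i * (1 - χ i) : ℝ) : ℂ) • p i := by
      have h2 : S * k = ∑ i, ((l i * χ i : ℝ) : ℂ) • p i := by
        rw [hS, hk, diag_mul p _ _ hp hpo]
      rw [hk0, mul_zero] at h2
      rw [← sub_zero S, h2, hS, ← Finset.sum_sub_distrib]
      refine Finset.sum_congr rfl (fun i _ => ?_)
      rw [← sub_smul]
      congr 1
      push_cast
      ring
    rw [h1]
    refine diag_norm p _ _ (by positivity) hp hpo (fun i => ?_)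
    rw [hχ]
    split_ifs with h
    · simp; positivity
    · push Not at h
      simpa using h
  have hfin : ‖b‖ ≤ T + 2 * δ := by
    have h1 : b = (b - S) + S := by abel
    rw [h1]
    refine (norm_add_le _ _).trans ?_
    have h2 : ‖b - S‖ ≤ δ := by rw [hS]; exact hpn
    linarith
  rw [hδ] at hfin
  linarith

end Pool.Agent.U452.AWQ
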